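import Pool.Agent.Y45.HM.Vty

set_option autoImplicit false

namespace Pool.Agent.Results.MP_364ede_al.SolubleRFVarieties

open scoped commutatorElement

/-- `G` belongs to the variety of groups defined by the laws `w = 1`, `w ∈ W`. -/
def InVariety (W : Set (FreeGroup ℕ)) (G : Type) [Group G] : Prop :=
  ∀ w ∈ W, ∀ f : ℕ → G, FreeGroup.lift f w = 1

/-- the variety defined by `W` is soluble: the derived lengths of its groups are bounded. -/
def SolubleVariety (W : Set (FreeGroup ℕ)) : Prop :=
  ∃ d : ℕ, ∀ (G : Type) [Group G], InVariety W G → derivedSeries G d = ⊥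

/-- `G` is residually finite: every nontrivial element lies outside some normal subgroup of
finite index. -/
def ResFinite (G : Type) [Group G] : Prop :=
  ∀ g : G, g ≠ 1 → ∃ N : Subgroup G, N.Normal ∧ N.FiniteIndex ∧ g ∉ N

/-- `G` is Hopfian: every surjective endomorphism is injective. -/
def Hopfian (G : Type) [Group G] : Prop :=
  ∀ φ : G →* G, Function.Surjective φ → Function.Injective φ

/-- `G` satisfies the maximal condition on normal subgroups: every normal subgroup of `G` is the
normal closure of a finite set. -/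
def MaxNormal (G : Type) [Group G] : Prop :=
  ∀ N : Subgroup G, N.Normal → ∃ S : Finset G, N = Subgroup.normalClosure (S : Set G)

/-- the variety defined by `W` is small: every family of pairwise non-isomorphic finitely generated
groups in it has fewer than `2^ℵ₀` members. -/
def SmallVariety (W : Set (FreeGroup ℕ)) : Prop :=
  ∀ (ι : Type) (G : ι → Type) [∀ i, Group (G i)], (∀ i, Group.FG (G i)) →
    (∀ i, InVariety W (G i)) → (∀ i j, Nonempty (G i ≃* G j) → i = j) →
    Cardinal.mk ι < Cardinal.continuum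

/-- the variety defined by `W` satisfies, for some words `γ₁, …, γₙ` in `b, m, t`, some non-zero
integers `i₁, …, iₙ` and some integers `e₁, …, eₙ`, the law
`[b, m] = ∏ₖ γₖ [b, t^iₖ m t^-iₖ]^eₖ γₖ⁻¹`. -/
def TwistLaw (W : Set (FreeGroup ℕ)) : Prop :=
  ∃ (n : ℕ) (γ : Fin n → FreeGroup (Fin 3)) (i e : Fin n → ℤ), (∀ k, i k ≠ 0) ∧
    ∀ (G : Type) [Group G], InVariety W G → ∀ b m t : G,
      ⁅b, m⁆ = (List.ofFn fun k : Fin n =>
        FreeGroup.lift ![b, m, t] (γ k) * ⁅b, t ^ (i k) * m * t ^ (-(i k))⁆ ^ (e k) *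
          (FreeGroup.lift ![b, m, t] (γ k))⁻¹).prod

/-- Description of the soluble varieties in which every finitely generated group is residually
finite: by a law, by a forbidden configuration, and by several equivalent finiteness properties. -/
theorem result (W : Set (FreeGroup ℕ)) (hsol : SolubleVariety W) :
    List.TFAE [
      ∀ (G : Type) [Group G], Group.FG G → InVariety W G → ResFinite G,
      ∀ (G : Type) [Group G], (∃ x y z : G, Subgroup.closure {x, y, z} = ⊤) → InVariety W G →
        ResFinite G,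
      TwistLaw W,
      ∀ (G : Type) [Group G], InVariety W G → ∀ b m t : G,
        (∀ i : ℤ, i ≠ 0 → ⁅b, t ^ i * m * t ^ (-i)⁆ = 1) → ⁅b, m⁆ = 1,
      ∀ (G : Type) [Group G], Group.FG G → InVariety W G → MaxNormal G,
      ∀ (G : Type) [Group G], Group.FG G → InVariety W G → Hopfian G,
      SmallVariety W] := by
  obtain ⟨d, hd⟩ := hsol
  have hrfG : ∀ (G : Type) [Group G], ResFinite G → Group.ResiduallyFinite G := by
    intro G _ h
    rw [Group.residuallyFinite_iff_exists_finiteIndex]
    intro g hg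
    obtain ⟨N, _, h2, h3⟩ := h g hg
    exact ⟨N, h2, h3⟩
  have hrfG' : ∀ (G : Type) [Group G], Group.ResiduallyFinite G → ResFinite G := by
    intro G _ h g hg
    obtain ⟨H, hH⟩ := Group.residuallyFinite_iff_exists_finiteIndexNormalSubgroup.1 h g hg
    exact ⟨H.toSubgroup, H.isNormal', H.isFiniteIndex', hH⟩
  have hUI : TwistLaw W ↔
      ∃ u : H53R2.UI, ∀ (G : Type) [Group G], H53R2.InVar W G → u.Grp G := by
    constructor
    · rintro ⟨n, γ, i, e, hi, h⟩
      exact ⟨⟨n, γ, i, e, hi⟩, h⟩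
    · rintro ⟨u, h⟩
      exact ⟨u.n, u.w, u.i, u.e, u.hi, h⟩
  have hmax : TwistLaw W → ∀ (G : Type) [Group G], Group.FG G → InVariety W G → H53R2.MaxN G := by
    intro hT G _ hfg hG
    obtain ⟨u, hu⟩ := hUI.1 hT
    exact (H53R2.U_main u d G (hu G hG) (hd G hG)).2
  have hQ : (∀ N : Subgroup (H53R2.RF W 3), ∀ _ : N.Normal, Hopfian (H53R2.RF W 3 ⧸ N)) →
      TwistLaw W := by
    intro h
    rw [hUI]
    refine H53R2.exists_UI W ?_
    intro N hN φ hφ
    exact h N hN φ hφ
  have hfg3 : ∀ (G : Type) [Group G], (∃ x y z : G, Subgroup.closure {x, y, z} = ⊤) →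
      Group.FG G := by
    classical
    rintro G _ ⟨x, y, z, h⟩
    exact ⟨⟨{x, y, z}, by simpa using h⟩⟩
  tfae_have 1 → 2 := fun h G _ h3 hG => h G (hfg3 G h3) hG
  tfae_have 2 → 3 := by
    intro h
    apply hQ
    intro N hN φ hφ
    have h1 : Group.FG (H53R2.RF W 3 ⧸ N) := hfg3 _ (Y45.HM.three_gen W N)
    exact Y45.HM.hopfian_of_rf _ (hrfG _ (h _ (Y45.HM.three_gen W N)
      ((H53R2.RF_inVar W 3).quot N))) φ hφ
  tfae_have 3 → 1 := by
    intro hT G _ hfg hG
    obtain ⟨u, hu⟩ := hUI.1 hT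
    exact hrfG' G (Y45.HM.rf_main u d G (hu G hG) (hd G hG))
  tfae_have 3 → 4 := by
    rintro ⟨n, γ, i, e, hi, h⟩ G _ hG b m t hc
    rw [h G hG b m t]
    apply List.prod_eq_one
    intro x hx
    rw [List.mem_ofFn] at hx
    obtain ⟨k, rfl⟩ := hx
    rw [hc (i k) (hi k), one_zpow, mul_one, mul_inv_cancel]
  tfae_have 4 → 3 := by
    intro h
    rw [hUI]
    exact Y45.HM.exists_UI_of_config W h
  tfae_have 3 → 5 := fun hT G _ hfg hG N hN => (hmax hT G hfg hG).normalClosure N hN
  tfae_have 5 → 6 := fun h G _ hfg hG φ hφ =>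
    H53R2.hopfian_of_maxN (Y45.HM.maxN_of_fin (h G hfg hG)) φ hφ
  tfae_have 6 → 3 := by
    intro h
    apply hQ
    intro N hN φ hφ
    have h1 : Group.FG (H53R2.RF W 3 ⧸ N) := QuotientGroup.fg _
    exact h _ h1 ((H53R2.RF_inVar W 3).quot N) φ hφ
  tfae_have 5 → 7 := by
    intro h ι G _ hfg hG hne
    have hfgn : ∀ n, Group.FG (H53R2.RF W n) := fun n => QuotientGroup.fg _
    have : Countable ι := H53R2.countable_of_maxN W
      (fun n => Y45.HM.maxN_of_fin (h (H53R2.RF W n) (hfgn n) (H53R2.RF_inVar W n))) ι G hfg hG hne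
    exact (Cardinal.mk_le_aleph0_iff.2 this).trans_lt Cardinal.aleph0_lt_continuum
  tfae_have 7 → 3 := by
    intro h
    rw [hUI]
    exact H53R2.exists_UI_small h
  tfae_finish

end Pool.Agent.Results.MP_364ede_al.SolubleRFVarieties
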